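import Pool.Agent.Helper89.TQ.Ctx

set_option autoImplicit false
set_option linter.all false
set_option maxHeartbeats 4000000

namespace Pool.Agent.Helper70.TQ

open Pool.Agent.Helper89.TQ

theorem c0_11_22_33_k0 {n1 n2 n3 A1 A2 A3 B1 B2 B3 m11_1 m11_2 m11_3 m13_1 m13_2 m13_3 m22_1 m22_2 m22_3 m23_1 m23_2 m23_3 m33_1 m33_2 m33_3 : ℤ}
    (C : Ctx0 n1 n2 n3 A1 A2 A3 B1 B2 B3 m11_1 m11_2 m11_3 m13_1 m13_2 m13_3 m22_1 m22_2 m22_3 m23_1 m23_2 m23_3 m33_1 m33_2 m33_3)
    (e0 : 0 < B1)
    (e1 : 0 < B2)
    (e2 : 0 < A3)
    (s1 : 0 * A1 + 3 * B1 ≤ m11_1 + m22_1 + m33_1)
    (s2 : 0 * A2 + 3 * B2 ≤ m11_2 + m22_2 + m33_2)
    (s3 : 0 * A3 + 3 * B3 ≤ m11_3 + m22_3 + m33_3) : False := by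
  have d0 : ((-1) * A1 + (1) ≤ 0 ∧ A2 + (-1) * A1 + (-1) * n2 + (1) ≤ 0) ∨ ((-1) * B1 + (1) ≤ 0 ∧ B2 + (-1) * B1 + (-1) * n2 + (1) ≤ 0) := by
    have h := C.t12
    clear C s1 s2 s3
    omega
  have d1 : (A1 + (-1) * A2 + (1) ≤ 0 ∧ A3 + (-1) * A2 + (-1) * n3 + (1) ≤ 0) ∨ (B1 + (-1) * B2 + (1) ≤ 0 ∧ B3 + (-1) * B2 + (-1) * n3 + (1) ≤ 0) := by
    have h := C.t23
    clear C s1 s2 s3
    omega
  have d2 : (m22_1 + (-1) * n1 + (0) ≤ 0 ∧ (-1) * m22_1 + n1 + (0) ≤ 0) ∨ (m22_1 + (-1) * B2 + (1) ≤ 0 ∧ (-1) * m22_1 + B2 + (-1) ≤ 0) := by
    have h := C.f22_2
    clear C s1 s2 s3
    omega
  have d3 : (m22_2 + (-1) * m22_1 + (-1) * n2 + (0) ≤ 0 ∧ (-1) * m22_2 + m22_1 + n2 + (0) ≤ 0) ∨ (m22_2 + (-1) * B2 + (1) ≤ 0 ∧ (-1) * m22_2 + B2 + (-1) ≤ 0) := by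
    have h := C.f22_5
    clear C s1 s2 s3
    omega
  have d4 : (m33_1 + (-1) * n1 + (0) ≤ 0 ∧ (-1) * m33_1 + n1 + (0) ≤ 0) ∨ (m33_1 + (-1) * A3 + (1) ≤ 0 ∧ (-1) * m33_1 + A3 + (-1) ≤ 0) := by
    have h := C.f33_2
    clear C s1 s2 s3
    omega
  have d5 : (m33_2 + (-1) * m33_1 + (-1) * n2 + (0) ≤ 0 ∧ (-1) * m33_2 + m33_1 + n2 + (0) ≤ 0) ∨ (m33_2 + (-1) * A3 + (1) ≤ 0 ∧ (-1) * m33_2 + A3 + (-1) ≤ 0) := by
    have h := C.f33_5
    clear C s1 s2 s3
    omega
  have d6 : (m33_3 + (-1) * m33_2 + (-1) * n3 + (0) ≤ 0 ∧ (-1) * m33_3 + m33_2 + n3 + (0) ≤ 0) ∨ (m33_3 + (-1) * A3 + (1) ≤ 0 ∧ (-1) * m33_3 + A3 + (-1) ≤ 0) := by
    have h := C.f33_8
    clear C s1 s2 s3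
    omega
  have d7 : (m13_1 + (-1) * A1 + (1) ≤ 0 ∧ (-1) * m13_1 + A1 + (-1) ≤ 0) ∨ (m13_1 + (-1) * B3 + (1) ≤ 0 ∧ (-1) * m13_1 + B3 + (-1) ≤ 0) := by
    have h := C.f13_2
    clear C s1 s2 s3
    omega
  have d8 : (m13_2 + (-1) * m13_1 + (-1) * n2 + (0) ≤ 0 ∧ (-1) * m13_2 + m13_1 + n2 + (0) ≤ 0) ∨ (m13_2 + (-1) * B3 + (1) ≤ 0 ∧ (-1) * m13_2 + B3 + (-1) ≤ 0) := by
    have h := C.f13_5
    clear C s1 s2 s3
    omega
  have d9 : (m13_3 + (-1) * m13_2 + (-1) * n3 + (0) ≤ 0 ∧ (-1) * m13_3 + m13_2 + n3 + (0) ≤ 0) ∨ (m13_3 + (-1) * B3 + (1) ≤ 0 ∧ (-1) * m13_3 + B3 + (-1) ≤ 0) := by
    have h := C.f13_8
    clear C s1 s2 s3
    omega
  have d10 : (B1 + (0) ≤ 0) ∨ (A3 + (0) ≤ 0) ∨ ((-2) * B1 + m11_1 + m33_1 + (1) ≤ 0) ∨ ((-2) * B2 + m11_2 + m33_2 + (1) ≤ 0) ∨ ((-2) * B3 + m11_3 + m33_3 + (1) ≤ 0) := by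
    have h := C.p11_33B
    clear C s1 s2 s3
    omega
  have d11 : ((-1) * A1 + A2 + (0) ≤ 0) ∨ ((-1) * A3 + A2 + n3 + (-1) ≤ 0) ∨ ((-1) * B2 + B1 + n2 + (0) ≤ 0) ∨ ((-1) * B2 + B3 + (-1) ≤ 0) ∨ ((-1) * A2 + B2 + (1) ≤ 0 ∧ (-1) * A3 + B3 + (-1) ≤ 0) := by
    have h := C.tzpm
    clear C s1 s2 s3
    omega
  have d12 : ((-1) * A2 + A1 + n2 + (0) ≤ 0) ∨ ((-1) * A2 + A3 + (-1) ≤ 0) ∨ ((-1) * B1 + B2 + (0) ≤ 0) ∨ ((-1) * B3 + B2 + n3 + (-1) ≤ 0) := by
    have h := C.tzmp
    clear C s1 s2 s3
    omega
  have d13 : (A1 + (0) ≤ 0) ∨ ((-1) * A2 + A1 + n2 + (0) ≤ 0) ∨ ((-1) * A3 + A2 + n3 + (0) ≤ 0) ∨ ((-1) * B1 + n1 + (0) ≤ 0) ∨ ((-1) * B1 + B2 + (0) ≤ 0) ∨ ((-1) * B2 + B3 + (0) ≤ 0) ∨ ((-1) * A3 + B3 + (-1) ≤ 0) ∨ ((-1) * B1 + A1 + (-1) ≤ 0 ∧ (-1) * B2 + A2 + (0) ≤ 0) := by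
    have h := C.tpzm
    clear C s1 s2 s3
    omega
  have d14 : (A1 + (0) ≤ 0) ∨ ((-1) * A2 + A1 + n2 + (-1) ≤ 0) ∨ ((-1) * A2 + A3 + (0) ≤ 0) ∨ ((-1) * B1 + n1 + (0) ≤ 0) ∨ ((-1) * B1 + B2 + (-1) ≤ 0) ∨ ((-1) * B3 + B2 + n3 + (0) ≤ 0) := by
    have h := C.tpmz
    clear C s1 s2 s3
    omega
  have d15 : (A1 + (0) ≤ 0) ∨ (B3 + (0) ≤ 0) ∨ (B2 + (0) ≤ 0) ∨ ((-2) * B1 + m13_1 + m22_1 + (1) ≤ 0) ∨ ((-2) * B2 + m13_2 + m22_2 + (1) ≤ 0) ∨ ((-2) * B3 + m13_3 + m22_3 + (1) ≤ 0) := by
    have h := C.p13_22B
    clear C s1 s2 s3
    omega
  have h0 := C.a0
  have h1 := C.a1
  have h2 := C.a2
  have h3 := C.a3
  have h4 := C.a4
  have h5 := C.a5
  have h6 := C.b0
  have h7 := C.b1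
  have h8 := C.b2
  have h9 := C.b3
  have h10 := C.b4
  have h11 := C.b5
  have h12 := C.o0
  have h13 := C.o1
  have h14 := C.o2
  have h17 := C.f11_0
  have h18 := C.f11_1
  have h19 := C.f11_2
  have h20 := C.f22_0
  have h21 := C.f22_1
  have h23 := C.f22_3
  have h24 := C.f22_4
  have h26 := C.f22_6
  have h27 := C.f33_0
  have h28 := C.f33_1
  have h30 := C.f33_3
  have h31 := C.f33_4
  have h33 := C.f33_6
  have h34 := C.f33_7
  have h36 := C.f13_0
  have h37 := C.f13_1
  have h39 := C.f13_3
  have h40 := C.f13_4
  have h42 := C.f13_6
  have h43 := C.f13_7
  clear C
  rcases d7 with c7 | c7
  · rcases d0 with c0 | c0
    · rcases d1 with c1 | c1
      · rcases d2 with c2 | c2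
        · rcases d3 with c3 | c3
          · omega
          · rcases d4 with c4 | c4
            · rcases d10 with c10 | c10 | c10 | c10 | c10
              · omega
              · omega
              · omega
              · omega
              · rcases d6 with c6 | c6
                · omega
                · rcases d12 with c12 | c12 | c12 | c12
                  · omega
                  · rcases d5 with c5 | c5
                    · omega
                    · rcases d8 with c8 | c8
                      · rcases d9 with c9 | c9
                        · omega
                        · rcases d15 with c15 | c15 | c15 | c15 | c15 | c15 <;> omega
                      · rcases d9 with c9 | c9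
                        · omega
                        · rcases d15 with c15 | c15 | c15 | c15 | c15 | c15 <;> omega
                  · omega
                  · omega
            · rcases d5 with c5 | c5
              · omega
              · rcases d6 with c6 | c6
                · omega
                · rcases d10 with c10 | c10 | c10 | c10 | c10
                  · omega
                  · omega
                  · omega
                  · omega
                  · rcases d11 with c11 | c11 | c11 | c11 | c11 <;> omega
        · rcases d3 with c3 | c3
          · omega
          · rcases d4 with c4 | c4
            · rcases d10 with c10 | c10 | c10 | c10 | c10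
              · omega
              · omega
              · omega
              · omega
              · rcases d6 with c6 | c6
                · omega
                · rcases d5 with c5 | c5
                  · rcases d8 with c8 | c8
                    · rcases d9 with c9 | c9
                      · omega
                      · rcases d12 with c12 | c12 | c12 | c12
                        · omega
                        · omega
                        · rcases d11 with c11 | c11 | c11 | c11 | c11 <;> omega
                        · omega
                    · omega
                  · rcases d8 with c8 | c8
                    · rcases d9 with c9 | c9
                      · omega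
                      · rcases d11 with c11 | c11 | c11 | c11 | c11
                        · omega
                        · omega
                        · rcases d12 with c12 | c12 | c12 | c12
                          · omega
                          · rcases d13 with c13 | c13 | c13 | c13 | c13 | c13 | c13 | c13
                            · omega
                            · omega
                            · omega
                            · omega
                            · omega
                            · omega
                            · rcases d15 with c15 | c15 | c15 | c15 | c15 | c15 <;> omega
                            · omega
                          · omega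
                          · omega
                        · omega
                        · rcases d12 with c12 | c12 | c12 | c12
                          · omega
                          · rcases d15 with c15 | c15 | c15 | c15 | c15 | c15 <;> omega
                          · omega
                          · omega
                    · rcases d9 with c9 | c9
                      · omega
                      · rcases d12 with c12 | c12 | c12 | c12
                        · omega
                        · rcases d15 with c15 | c15 | c15 | c15 | c15 | c15 <;> omega
                        · omega
                        · omega
            · rcases d5 with c5 | c5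
              · omega
              · rcases d6 with c6 | c6
                · omega
                · rcases d10 with c10 | c10 | c10 | c10 | c10
                  · omega
                  · omega
                  · omega
                  · omega
                  · rcases d8 with c8 | c8
                    · rcases d9 with c9 | c9
                      · omega
                      · rcases d11 with c11 | c11 | c11 | c11 | c11
                        · omega
                        · omega
                        · rcases d12 with c12 | c12 | c12 | c12
                          · omega
                          · rcases d13 with c13 | c13 | c13 | c13 | c13 | c13 | c13 | c13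
                            · omega
                            · omega
                            · omega
                            · omega
                            · omega
                            · omega
                            · rcases d15 with c15 | c15 | c15 | c15 | c15 | c15 <;> omega
                            · omega
                          · omega
                          · omega
                        · omega
                        · rcases d12 with c12 | c12 | c12 | c12
                          · omega
                          · rcases d15 with c15 | c15 | c15 | c15 | c15 | c15 <;> omega
                          · omega
                          · omega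
                    · rcases d9 with c9 | c9
                      · omega
                      · rcases d12 with c12 | c12 | c12 | c12
                        · omega
                        · rcases d15 with c15 | c15 | c15 | c15 | c15 | c15 <;> omega
                        · omega
                        · omega
      · rcases d2 with c2 | c2
        · rcases d3 with c3 | c3
          · omega
          · rcases d4 with c4 | c4
            · rcases d10 with c10 | c10 | c10 | c10 | c10
              · omega
              · omega
              · omega
              · omega
              · rcases d6 with c6 | c6
                · omega
                · rcases d12 with c12 | c12 | c12 | c12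
                  · omega
                  · rcases d5 with c5 | c5
                    · omega
                    · rcases d8 with c8 | c8
                      · rcases d9 with c9 | c9
                        · omega
                        · rcases d15 with c15 | c15 | c15 | c15 | c15 | c15 <;> omega
                      · rcases d9 with c9 | c9
                        · omega
                        · rcases d15 with c15 | c15 | c15 | c15 | c15 | c15 <;> omega
                  · omega
                  · omega
            · rcases d5 with c5 | c5
              · omega
              · rcases d6 with c6 | c6
                · omega
                · rcases d10 with c10 | c10 | c10 | c10 | c10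
                  · omega
                  · omega
                  · omega
                  · omega
                  · rcases d11 with c11 | c11 | c11 | c11 | c11 <;> omega
        · rcases d3 with c3 | c3
          · omega
          · rcases d4 with c4 | c4
            · rcases d10 with c10 | c10 | c10 | c10 | c10
              · omega
              · omega
              · omega
              · omega
              · rcases d6 with c6 | c6
                · omega
                · rcases d12 with c12 | c12 | c12 | c12
                  · omega
                  · rcases d5 with c5 | c5
                    · omega
                    · rcases d8 with c8 | c8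
                      · rcases d9 with c9 | c9
                        · omega
                        · rcases d15 with c15 | c15 | c15 | c15 | c15 | c15 <;> omega
                      · rcases d9 with c9 | c9
                        · omega
                        · rcases d15 with c15 | c15 | c15 | c15 | c15 | c15 <;> omega
                  · omega
                  · omega
            · rcases d5 with c5 | c5
              · omega
              · rcases d6 with c6 | c6
                · omega
                · rcases d10 with c10 | c10 | c10 | c10 | c10
                  · omega
                  · omega
                  · omega
                  · omega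
                  · rcases d12 with c12 | c12 | c12 | c12
                    · omega
                    · rcases d8 with c8 | c8
                      · rcases d9 with c9 | c9
                        · omega
                        · rcases d15 with c15 | c15 | c15 | c15 | c15 | c15 <;> omega
                      · rcases d9 with c9 | c9
                        · omega
                        · rcases d15 with c15 | c15 | c15 | c15 | c15 | c15 <;> omega
                    · omega
                    · omega
    · rcases d1 with c1 | c1
      · rcases d2 with c2 | c2
        · rcases d3 with c3 | c3
          · omega
          · rcases d4 with c4 | c4
            · rcases d10 with c10 | c10 | c10 | c10 | c10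
              · omega
              · omega
              · omega
              · omega
              · rcases d6 with c6 | c6
                · omega
                · rcases d11 with c11 | c11 | c11 | c11 | c11 <;> omega
            · rcases d5 with c5 | c5
              · omega
              · rcases d6 with c6 | c6
                · omega
                · rcases d10 with c10 | c10 | c10 | c10 | c10
                  · omega
                  · omega
                  · omega
                  · omega
                  · rcases d11 with c11 | c11 | c11 | c11 | c11 <;> omega
        · rcases d3 with c3 | c3
          · omega
          · rcases d4 with c4 | c4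
            · rcases d10 with c10 | c10 | c10 | c10 | c10
              · omega
              · omega
              · omega
              · omega
              · rcases d6 with c6 | c6
                · omega
                · rcases d11 with c11 | c11 | c11 | c11 | c11 <;> omega
            · rcases d5 with c5 | c5
              · omega
              · rcases d6 with c6 | c6
                · omega
                · rcases d10 with c10 | c10 | c10 | c10 | c10
                  · omega
                  · omega
                  · omega
                  · omega
                  · rcases d11 with c11 | c11 | c11 | c11 | c11 <;> omega
      · rcases d2 with c2 | c2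
        · rcases d3 with c3 | c3
          · omega
          · rcases d4 with c4 | c4
            · rcases d10 with c10 | c10 | c10 | c10 | c10
              · omega
              · omega
              · omega
              · omega
              · rcases d6 with c6 | c6
                · omega
                · rcases d11 with c11 | c11 | c11 | c11 | c11 <;> omega
            · rcases d5 with c5 | c5
              · omega
              · rcases d6 with c6 | c6
                · omega
                · rcases d10 with c10 | c10 | c10 | c10 | c10
                  · omega
                  · omega
                  · omega
                  · omega
                  · rcases d11 with c11 | c11 | c11 | c11 | c11 <;> omega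
        · rcases d3 with c3 | c3
          · omega
          · rcases d4 with c4 | c4
            · rcases d10 with c10 | c10 | c10 | c10 | c10
              · omega
              · omega
              · omega
              · omega
              · rcases d6 with c6 | c6
                · omega
                · rcases d11 with c11 | c11 | c11 | c11 | c11
                  · rcases d12 with c12 | c12 | c12 | c12
                    · omega
                    · rcases d5 with c5 | c5
                      · omega
                      · rcases d13 with c13 | c13 | c13 | c13 | c13 | c13 | c13 | c13
                        · omega
                        · omega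
                        · omega
                        · omega
                        · omega
                        · omega
                        · omega
                        · rcases d8 with c8 | c8
                          · rcases d9 with c9 | c9
                            · omega
                            · rcases d14 with c14 | c14 | c14 | c14 | c14 | c14
                              · omega
                              · omega
                              · omega
                              · omega
                              · rcases d15 with c15 | c15 | c15 | c15 | c15 | c15 <;> omega
                              · omega
                          · omega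
                    · omega
                    · omega
                  · omega
                  · omega
                  · omega
                  · omega
            · rcases d5 with c5 | c5
              · omega
              · rcases d6 with c6 | c6
                · omega
                · rcases d10 with c10 | c10 | c10 | c10 | c10
                  · omega
                  · omega
                  · omega
                  · omega
                  · rcases d11 with c11 | c11 | c11 | c11 | c11
                    · rcases d12 with c12 | c12 | c12 | c12
                      · omega
                      · rcases d13 with c13 | c13 | c13 | c13 | c13 | c13 | c13 | c13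
                        · omega
                        · omega
                        · omega
                        · omega
                        · omega
                        · omega
                        · omega
                        · rcases d8 with c8 | c8
                          · rcases d9 with c9 | c9
                            · omega
                            · rcases d14 with c14 | c14 | c14 | c14 | c14 | c14
                              · omega
                              · omega
                              · omega
                              · omega
                              · rcases d15 with c15 | c15 | c15 | c15 | c15 | c15 <;> omega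
                              · omega
                          · omega
                      · omega
                      · omega
                    · omega
                    · omega
                    · omega
                    · omega
  · omega

end Pool.Agent.Helper70.TQ
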